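import Mathlib

/-!
Purely group-theoretic part: automorphisms of `Γ^4` preserving `{h | h 0 * h 1 * h 2 * h 3 = 1}`,
where `Γ` is a nonabelian group in which centralizers of noncentral elements are commutative.
-/

namespace Pool.Agent.Lib.MP_629379_al

open Subgroup

/-- centralizers of noncentral elements are commutative -/
def CentComm (Γ : Type*) [Group Γ] : Prop :=
  ∀ c x y : Γ, c ∉ center Γ → Commute c x → Commute c y → Commute x y

variable {Γ : Type*} [Group Γ]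

theorem decomp (h : Fin 4 → Γ) :
    h = Pi.mulSingle 0 (h 0) * Pi.mulSingle 1 (h 1) * Pi.mulSingle 2 (h 2) *
      Pi.mulSingle 3 (h 3) := by
  ext i
  fin_cases i <;> simp [Pi.mulSingle, Function.update]

theorem mem_center_of_forall {h : Fin 4 → Γ} (H : ∀ i, h i ∈ center Γ) :
    h ∈ center (Fin 4 → Γ) := by
  rw [mem_center_iff]
  intro g
  ext i
  exact (mem_center_iff.1 (H i)) (g i)

theorem forall_of_mem_center {h : Fin 4 → Γ} (H : h ∈ center (Fin 4 → Γ)) (i : Fin 4) :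
    h i ∈ center Γ := by
  rw [mem_center_iff] at H ⊢
  intro g
  have := congrFun (H (fun _ => g)) i
  simpa using this

theorem map_center (σ : (Fin 4 → Γ) ≃* (Fin 4 → Γ)) {h : Fin 4 → Γ} :
    σ h ∈ center (Fin 4 → Γ) ↔ h ∈ center (Fin 4 → Γ) := by
  constructor
  · intro H
    rw [mem_center_iff] at H ⊢
    intro g
    apply σ.injective
    rw [map_mul, map_mul]
    exact H (σ g)
  · intro H
    rw [mem_center_iff] at H ⊢
    intro g
    have := H (σ.symm g)
    have h2 := congrArg σ this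
    rw [map_mul, map_mul, MulEquiv.apply_symm_apply] at h2
    exact h2

theorem exists_tau (hna : ¬ ∀ x y : Γ, Commute x y) (hc : CentComm Γ)
    (σ : (Fin 4 → Γ) ≃* (Fin 4 → Γ)) :
    ∀ i, ∃ j, ∀ k, k ≠ j → ∀ g, σ (Pi.mulSingle k g) i ∈ center Γ := by
  intro i
  by_contra hcon
  push Not at hcon
  obtain ⟨k₁, -, g₁, hg₁⟩ := hcon 0
  obtain ⟨k₂, hk₂, g₂, hg₂⟩ := hcon k₁
  have hcomm : ∀ k l, k ≠ l → ∀ g h : Γ,
      Commute (σ (Pi.mulSingle k g) i) (σ (Pi.mulSingle l h) i) := by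
    intro k l hkl g h
    have h1 : Commute (Pi.mulSingle k g : Fin 4 → Γ) (Pi.mulSingle l h) := by
      change (Pi.mulSingle k g * Pi.mulSingle l h : Fin 4 → Γ) =
        Pi.mulSingle l h * Pi.mulSingle k g
      ext j
      by_cases hj : j = k
      · subst hj
        simp [Pi.mulSingle_eq_of_ne hkl]
      · simp [Pi.mulSingle_eq_of_ne hj]
    have h2 := h1.map σ
    have h3 := congrFun h2 i
    exact h3
  have hself : ∀ k, ∀ g h : Γ,
      Commute (σ (Pi.mulSingle k g) i) (σ (Pi.mulSingle k h) i) := by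
    intro k g h
    by_cases hk : k = k₁
    · exact hc _ _ _ hg₂ (hcomm _ _ (by rw [hk]; exact hk₂) _ _)
        (hcomm _ _ (by rw [hk]; exact hk₂) _ _)
    · exact hc _ _ _ hg₁ (hcomm _ _ (Ne.symm hk) _ _) (hcomm _ _ (Ne.symm hk) _ _)
  have hall : ∀ k l, ∀ g h : Γ,
      Commute (σ (Pi.mulSingle k g) i) (σ (Pi.mulSingle l h) i) := by
    intro k l g h
    by_cases hkl : k = l
    · subst hkl; exact hself _ _ _
    · exact hcomm _ _ hkl _ _
  apply hna
  have hval : ∀ f : Fin 4 → Γ, σ f i = σ (Pi.mulSingle 0 (f 0)) i * σ (Pi.mulSingle 1 (f 1)) i *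
      σ (Pi.mulSingle 2 (f 2)) i * σ (Pi.mulSingle 3 (f 3)) i := by
    intro f
    conv_lhs => rw [decomp f]
    simp only [map_mul, Pi.mul_apply]
  intro x y
  have hx : σ (σ.symm (fun _ => x)) i = x := by rw [MulEquiv.apply_symm_apply]
  have hy : σ (σ.symm (fun _ => y)) i = y := by rw [MulEquiv.apply_symm_apply]
  rw [← hx, ← hy, hval (σ.symm fun _ => x), hval (σ.symm fun _ => y)]
  refine Commute.mul_left (Commute.mul_left (Commute.mul_left ?_ ?_) ?_) ?_ <;>
  refine Commute.mul_right (Commute.mul_right (Commute.mul_right ?_ ?_) ?_) ?_ <;>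
  exact hall _ _ _ _

theorem single_mem_X {a b : Fin 4} (hab : a ≠ b) (g : Γ) :
    (Pi.mulSingle a g * Pi.mulSingle b g⁻¹ : Fin 4 → Γ) 0 *
    (Pi.mulSingle a g * Pi.mulSingle b g⁻¹ : Fin 4 → Γ) 1 *
    (Pi.mulSingle a g * Pi.mulSingle b g⁻¹ : Fin 4 → Γ) 2 *
    (Pi.mulSingle a g * Pi.mulSingle b g⁻¹ : Fin 4 → Γ) 3 = 1 := by
  fin_cases a <;> fin_cases b <;> first | exact absurd rfl hab | simp [Pi.mulSingle, Function.update]

/-- Structure of the automorphisms of `Γ^4` preserving the set `h 0 * h 1 * h 2 * h 3 = 1`. -/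
theorem exists_structure (hna : ¬ ∀ x y : Γ, Commute x y) (hc : CentComm Γ)
    (σ : (Fin 4 → Γ) ≃* (Fin 4 → Γ))
    (hX : ∀ h : Fin 4 → Γ, h 0 * h 1 * h 2 * h 3 = 1 →
      σ h 0 * σ h 1 * σ h 2 * σ h 3 = 1) :
    ∃ τ : Fin 4 → Fin 4, Function.Injective τ ∧ ∃ A : Γ →* Γ ⧸ center Γ,
      (∀ g, A g = 1 ↔ g ∈ center Γ) ∧
      ∀ (h : Fin 4 → Γ) (i : Fin 4), ((σ h i : Γ) : Γ ⧸ center Γ) = A (h (τ i)) := by
  choose τ hτ using exists_tau hna hc σ
  have hinj : Function.Injective τ := by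
    rw [Finite.injective_iff_surjective]
    intro k
    by_contra hk
    push Not at hk
    apply hna
    have hcen : ∀ g : Γ, g ∈ center Γ := by
      intro g
      have h1 : σ (Pi.mulSingle k g) ∈ center (Fin 4 → Γ) :=
        mem_center_of_forall (fun i => hτ i k (Ne.symm (hk i)) g)
      have h2 := (map_center σ).1 h1
      have h3 := forall_of_mem_center h2 k
      simpa using h3
    intro x y
    exact (mem_center_iff.1 (hcen y) x)
  -- the value of `σ h i` mod centre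
  let f : Fin 4 → Γ → Γ ⧸ center Γ := fun i g => ((σ (Pi.mulSingle (τ i) g) i : Γ) : Γ ⧸ center Γ)
  have hval : ∀ (h : Fin 4 → Γ) (i : Fin 4),
      ((σ h i : Γ) : Γ ⧸ center Γ) = f i (h (τ i)) := by
    intro h i
    have hone : ∀ k, k ≠ τ i → ∀ g, ((σ (Pi.mulSingle k g) i : Γ) : Γ ⧸ center Γ) = 1 := by
      intro k hk g
      rw [QuotientGroup.eq_one_iff]
      exact hτ i k hk g
    have h4 : ((σ h i : Γ) : Γ ⧸ center Γ) =
        ((σ (Pi.mulSingle 0 (h 0)) i : Γ) : Γ ⧸ center Γ) *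
        ((σ (Pi.mulSingle 1 (h 1)) i : Γ) : Γ ⧸ center Γ) *
        ((σ (Pi.mulSingle 2 (h 2)) i : Γ) : Γ ⧸ center Γ) *
        ((σ (Pi.mulSingle 3 (h 3)) i : Γ) : Γ ⧸ center Γ) := by
      conv_lhs => rw [decomp h]
      simp only [map_mul, Pi.mul_apply, QuotientGroup.mk_mul]
    have hcases : ∀ j : Fin 4, j = 0 ∨ j = 1 ∨ j = 2 ∨ j = 3 := by decide
    rw [h4]
    change _ = ((σ (Pi.mulSingle (τ i) (h (τ i))) i : Γ) : Γ ⧸ center Γ)
    rcases hcases (τ i) with h0 | h0 | h0 | h0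
    · rw [hone 1 (by rw [h0]; decide), hone 2 (by rw [h0]; decide),
        hone 3 (by rw [h0]; decide), h0]
      simp
    · rw [hone 0 (by rw [h0]; decide), hone 2 (by rw [h0]; decide),
        hone 3 (by rw [h0]; decide), h0]
      simp
    · rw [hone 0 (by rw [h0]; decide), hone 1 (by rw [h0]; decide),
        hone 3 (by rw [h0]; decide), h0]
      simp
    · rw [hone 0 (by rw [h0]; decide), hone 1 (by rw [h0]; decide),
        hone 2 (by rw [h0]; decide), h0]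
      simp
  let A : Γ →* Γ ⧸ center Γ :=
    { toFun := f 0
      map_one' := by
        change ((σ (Pi.mulSingle (τ 0) 1) 0 : Γ) : Γ ⧸ center Γ) = 1
        simp
      map_mul' := by
        intro x y
        change ((σ (Pi.mulSingle (τ 0) (x * y)) 0 : Γ) : Γ ⧸ center Γ) =
          ((σ (Pi.mulSingle (τ 0) x) 0 : Γ) : Γ ⧸ center Γ) *
          ((σ (Pi.mulSingle (τ 0) y) 0 : Γ) : Γ ⧸ center Γ)
        rw [Pi.mulSingle_mul, map_mul, Pi.mul_apply, QuotientGroup.mk_mul] }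
  have hfone : ∀ i, f i 1 = 1 := by
    intro i
    change ((σ (Pi.mulSingle (τ i) 1) i : Γ) : Γ ⧸ center Γ) = 1
    simp
  have hfinv : ∀ i g, f i g⁻¹ = (f i g)⁻¹ := by
    intro i g
    change ((σ (Pi.mulSingle (τ i) g⁻¹) i : Γ) : Γ ⧸ center Γ) =
      ((σ (Pi.mulSingle (τ i) g) i : Γ) : Γ ⧸ center Γ)⁻¹
    rw [Pi.mulSingle_inv, map_inv, Pi.inv_apply, QuotientGroup.mk_inv]
  have hA : ∀ i g, f i g = f 0 g := by
    intro i g
    by_cases hi : i = 0
    · rw [hi]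
    have hne : τ 0 ≠ τ i := fun h => hi (hinj h).symm
    have he := hX _ (single_mem_X hne g)
    have he2 := congrArg (fun x : Γ => (x : Γ ⧸ center Γ)) he
    simp only [QuotientGroup.mk_mul, QuotientGroup.mk_one] at he2
    rw [hval, hval, hval, hval] at he2
    have hself : ∀ a b : Fin 4, a ≠ b →
        (Pi.mulSingle a g * Pi.mulSingle b g⁻¹ : Fin 4 → Γ) a = g := by
      intro a b hab
      simp [Pi.mulSingle_eq_of_ne hab]
    have hself' : ∀ a b : Fin 4, a ≠ b →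
        (Pi.mulSingle a g * Pi.mulSingle b g⁻¹ : Fin 4 → Γ) b = g⁻¹ := by
      intro a b hab
      simp [Pi.mulSingle_eq_of_ne hab.symm]
    have hoth : ∀ a b c : Fin 4, c ≠ a → c ≠ b →
        (Pi.mulSingle a g * Pi.mulSingle b g⁻¹ : Fin 4 → Γ) c = 1 := by
      intro a b c h1 h2
      simp [Pi.mulSingle_eq_of_ne h1, Pi.mulSingle_eq_of_ne h2]
    have hcases : ∀ j : Fin 4, j = 0 ∨ j = 1 ∨ j = 2 ∨ j = 3 := by decide
    have hτne : ∀ a b : Fin 4, a ≠ b → τ a ≠ τ b := fun a b hab h => hab (hinj h)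
    rcases hcases i with h0 | h0 | h0 | h0
    · exact absurd h0 hi
    · subst h0
      rw [hself _ _ hne, hself' _ _ hne, hoth _ _ _ (hτne 2 0 (by decide)) (hτne 2 1 (by decide)),
        hoth _ _ _ (hτne 3 0 (by decide)) (hτne 3 1 (by decide)), hfone, hfone, mul_one, mul_one,
        hfinv, mul_inv_eq_one] at he2
      exact he2.symm
    · subst h0
      rw [hself _ _ hne, hself' _ _ hne, hoth _ _ _ (hτne 1 0 (by decide)) (hτne 1 2 (by decide)),
        hoth _ _ _ (hτne 3 0 (by decide)) (hτne 3 2 (by decide)), hfone, hfone, mul_one, mul_one,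
        hfinv, mul_inv_eq_one] at he2
      exact he2.symm
    · subst h0
      rw [hself _ _ hne, hself' _ _ hne, hoth _ _ _ (hτne 1 0 (by decide)) (hτne 1 3 (by decide)),
        hoth _ _ _ (hτne 2 0 (by decide)) (hτne 2 3 (by decide)), hfone, hfone, mul_one, mul_one,
        hfinv, mul_inv_eq_one] at he2
      exact he2.symm
  refine ⟨τ, hinj, A, ?_, ?_⟩
  · intro g
    have hconst : ∀ i, ((σ (fun _ => g) i : Γ) : Γ ⧸ center Γ) = A g := by
      intro i
      rw [hval, hA]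
      rfl
    constructor
    · intro hg
      have h1 : σ (fun _ => g) ∈ center (Fin 4 → Γ) := by
        apply mem_center_of_forall
        intro i
        rw [← QuotientGroup.eq_one_iff, hconst, hg]
      have h2 := (map_center σ).1 h1
      exact forall_of_mem_center h2 0
    · intro hg
      have h1 : (fun _ => g : Fin 4 → Γ) ∈ center (Fin 4 → Γ) :=
        mem_center_of_forall (fun _ => hg)
      have h2 := (map_center σ).2 h1
      have h3 := forall_of_mem_center h2 0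
      rw [← hconst 0, QuotientGroup.eq_one_iff]
      exact h3
  · intro h i
    rw [hval, hA]
    rfl

/-- The invariant of a subgroup of `Γ^4`. -/
def inv (T : Subgroup (Fin 4 → Γ)) : Set ℕ :=
  {m | ∃ a ∈ T, a 0 ∉ center Γ ∧ a 1 ∉ center Γ ∧ a 0 * a 0 ∈ center Γ ∧ a 1 * a 1 ∈ center Γ ∧
    (a 0 * a 1) ^ m ∈ center Γ}

theorem inv_subset (hna : ¬ ∀ x y : Γ, Commute x y) (hc : CentComm Γ)
    (σ : (Fin 4 → Γ) ≃* (Fin 4 → Γ))
    (hX : ∀ h : Fin 4 → Γ, h 0 * h 1 * h 2 * h 3 = 1 →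
      σ h 0 * σ h 1 * σ h 2 * σ h 3 = 1)
    (T T' : Subgroup (Fin 4 → Γ))
    (hT : ∀ a ∈ T, a 0 * a 3 ∈ center Γ ∧ a 1 * a 2 ∈ center Γ)
    (hT' : ∃ e ∈ T', e 0 ∉ center Γ ∧ e 1 ∈ center Γ)
    (hmap : T.map σ.toMonoidHom = T') : inv T ⊆ inv T' := by
  obtain ⟨τ, hinj, A, hker, hval⟩ := exists_structure hna hc σ hX
  have hrel : ∀ a ∈ T, A (a 3) = (A (a 0))⁻¹ ∧ A (a 2) = (A (a 1))⁻¹ := by
    intro a ha
    obtain ⟨h1, h2⟩ := hT a ha
    have h1' := (hker _).2 h1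
    have h2' := (hker _).2 h2
    rw [map_mul] at h1' h2'
    exact ⟨(inv_eq_of_mul_eq_one_right h1').symm, (inv_eq_of_mul_eq_one_right h2').symm⟩
  -- the positions `τ 0`, `τ 1` are in different classes
  have hcls : ((τ 0 = 0 ∨ τ 0 = 3) ∧ (τ 1 = 1 ∨ τ 1 = 2)) ∨
      ((τ 0 = 1 ∨ τ 0 = 2) ∧ (τ 1 = 0 ∨ τ 1 = 3)) := by
    obtain ⟨e', he', h0, h1⟩ := hT'
    rw [← hmap] at he'
    obtain ⟨e, he, rfl⟩ := he'
    change σ e 0 ∉ center Γ at h0
    change σ e 1 ∈ center Γ at h1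
    rw [← QuotientGroup.eq_one_iff, hval] at h0 h1
    obtain ⟨hr1, hr2⟩ := hrel e he
    have hcases : ∀ j : Fin 4, j = 0 ∨ j = 1 ∨ j = 2 ∨ j = 3 := by decide
    rcases hcases (τ 0) with a0 | a0 | a0 | a0 <;> rcases hcases (τ 1) with a1 | a1 | a1 | a1 <;>
      rw [a0] at h0 ⊢ <;> rw [a1] at h1 ⊢ <;>
      first
      | exact absurd h1 h0
      | (exfalso; rw [hr1] at h0; exact h0 (by rw [h1, inv_one]))
      | (exfalso; rw [hr2] at h0; exact h0 (by rw [h1, inv_one]))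
      | (exfalso; rw [hr1] at h1; exact h0 (inv_eq_one.1 h1))
      | (exfalso; rw [hr2] at h1; exact h0 (inv_eq_one.1 h1))
      | simp
  rintro m ⟨a, haT, h0, h1, h00, h11, hm⟩
  have hsq0 : A (a 0) * A (a 0) = 1 := by rw [← map_mul]; exact (hker _).2 h00
  have hsq1 : A (a 1) * A (a 1) = 1 := by rw [← map_mul]; exact (hker _).2 h11
  have hinv0 : (A (a 0))⁻¹ = A (a 0) := inv_eq_of_mul_eq_one_right hsq0
  have hinv1 : (A (a 1))⁻¹ = A (a 1) := inv_eq_of_mul_eq_one_right hsq1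
  obtain ⟨hr1, hr2⟩ := hrel a haT
  rw [hinv0] at hr1
  rw [hinv1] at hr2
  have hne0 : A (a 0) ≠ 1 := fun h => h0 ((hker _).1 h)
  have hne1 : A (a 1) ≠ 1 := fun h => h1 ((hker _).1 h)
  have hm' : (A (a 0) * A (a 1)) ^ m = 1 := by
    rw [← map_mul, ← map_pow]; exact (hker _).2 hm
  have hm'' : (A (a 1) * A (a 0)) ^ m = 1 := by
    have : A (a 1) * A (a 0) = A (a 1) * (A (a 0) * A (a 1)) * (A (a 1))⁻¹ := by group
    rw [this, conj_pow, hm']
    group
  refine ⟨σ a, ?_, ?_⟩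
  · rw [← hmap]
    exact ⟨a, haT, rfl⟩
  rw [← QuotientGroup.eq_one_iff, ← QuotientGroup.eq_one_iff, ← QuotientGroup.eq_one_iff,
    ← QuotientGroup.eq_one_iff, ← QuotientGroup.eq_one_iff]
  simp only [QuotientGroup.mk_mul, QuotientGroup.mk_pow, hval]
  rcases hcls with ⟨c0, c1⟩ | ⟨c0, c1⟩
  · have e0 : A (a (τ 0)) = A (a 0) := by
      rcases c0 with c | c <;> rw [c]
      exact hr1
    have e1 : A (a (τ 1)) = A (a 1) := by
      rcases c1 with c | c <;> rw [c]
      exact hr2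
    rw [e0, e1]
    exact ⟨hne0, hne1, hsq0, hsq1, hm'⟩
  · have e0 : A (a (τ 0)) = A (a 1) := by
      rcases c0 with c | c <;> rw [c]
      exact hr2
    have e1 : A (a (τ 1)) = A (a 0) := by
      rcases c1 with c | c <;> rw [c]
      exact hr1
    rw [e0, e1]
    exact ⟨hne1, hne0, hsq1, hsq0, hm''⟩

end Pool.Agent.Lib.MP_629379_al
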